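import Pool.Agent.Helper21.LM.Asm

set_option autoImplicit false

/-!
# Locally minimal abelian groups: the character is the tightness of the small subgroups
-/

open Topology Filter Set

namespace Pool.Agent.Helper21.LM


open Pool.Agent.Helper99.Tight (sep_of_tight)

section
variable {N : Type} [AddCommGroup N] [TopologicalSpace N] [IsTopologicalAddGroup N]

theorem precompact_of_embedding {D : Type} [AddCommGroup D] [TopologicalSpace D]
    [IsTopologicalAddGroup D] [CompactSpace D] (j : N →+ D) (hj : IsEmbedding j) :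
    Precompact N := by
  intro U hU
  have h0 : U ∈ comap j (𝓝 (0 : D)) := by
    rw [← map_zero j, ← hj.isInducing.nhds_eq_comap]
    exact hU
  obtain ⟨V, hV, hVU⟩ := h0
  obtain ⟨W, hW, hWs, hWV, -⟩ := exists_half hV
  obtain ⟨T, -, hT⟩ := isCompact_univ.elim_nhds_subcover (fun d : D => {x | x - d ∈ W}) (by
    intro d _
    have : ContinuousAt (fun y : D => y - d) d := by fun_prop
    apply this
    show W ∈ 𝓝 (d - d)
    rw [sub_self]
    exact hW)
  classical
  let h : D → N := fun t => if H : ∃ n, j n - t ∈ W then H.choose else 0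
  refine ⟨(h '' (T : Set D)), T.finite_toSet.image h, fun x => ?_⟩
  obtain ⟨t, ht, hxt⟩ := mem_iUnion₂.1 (hT (mem_univ (j x)))
  have hxt' : j x - t ∈ W := hxt
  refine ⟨h t, ⟨t, ht, rfl⟩, ?_⟩
  have hex : ∃ n, j n - t ∈ W := ⟨x, hxt'⟩
  have h1 : j (h t) - t ∈ W := by
    have : h t = hex.choose := dif_pos hex
    rw [this]
    exact hex.choose_spec
  apply hVU
  show j (x - h t) ∈ V
  have h2 := hWV _ hxt' _ (hWs _ h1)
  have h3 : j x - t + -(j (h t) - t) = j (x - h t) := by rw [map_sub]; abel
  rwa [h3] at h2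

variable [T2Space N]

/-- A minimal abelian group whose compact subgroups of prime exponent and torsion-free
precompact closed subgroups have tightness `≤ κ` is separated by `κ` neighbourhoods. -/
theorem sep_of_small (hN : IsMin N) (κ : Cardinal.{0}) (hκ : Cardinal.aleph0 ≤ κ)
    (ht1 : ∀ p : ℕ, p.Prime → IsCompact (torSub N p : Set N) → Tight (torSub N p) κ)
    (ht2 : ∀ H : AddSubgroup N, IsClosed (H : Set N) → Precompact H →
      (∀ n : ℕ, n ≠ 0 → ∀ x ∈ H, n • x = 0 → x = 0) → Tight H κ) : Sep N κ := by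
  classical
  obtain ⟨C, _, _, _, _, hCc, ι, hι, hd⟩ := exists_completion N
  have hCmin : IsMin C := hN.of_dense ι hι hd
  -- the torsion subgroups
  have hexp : ∀ p : Nat.Primes, ∃ (I : Type) (V : I → Set N), Cardinal.mk I ≤ κ ∧
      (∀ i, V i ∈ 𝓝 (0 : N)) ∧ ∀ x : N, (p : ℕ) • x = 0 → (∀ i, x ∈ V i) → x = 0 := by
    rintro ⟨p, hp⟩
    have hCp : IsClosed (torSub C p : Set C) := isClosed_torSub C p
    have hCpmin : IsMin (torSub C p) := hCmin.isMin_subgroup _ hCp
    have hCpc : GComplete (torSub C p) := hCc.closed_subgroup _ hCp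
    have hcomp : CompactSpace (torSub C p) := by
      apply compactSpace_of_precompact _ hCpc
      apply hCpmin.precompact_of_exponent hp
      intro x
      exact Subtype.ext x.2
    have hcomp' : IsCompact (torSub C p : Set C) := isCompact_iff_compactSpace.2 hcomp
    have himg : ι '' (torSub N p : Set N) = (torSub C p : Set C) := by
      ext x
      constructor
      · rintro ⟨n, hn, rfl⟩
        show p • ι n = 0
        have : p • n = 0 := hn
        rw [← map_nsmul, this, map_zero]
      · intro hx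
        have hx' : p • x = 0 := hx
        obtain ⟨n, rfl⟩ := tor_subset_range hN ι hι hd hp hx'
        refine ⟨n, ?_, rfl⟩
        show p • n = 0
        apply hι.injective
        rw [map_nsmul, hx', map_zero]
    have hNcomp : IsCompact (torSub N p : Set N) := by
      rw [hι.isInducing.isCompact_iff, himg]
      exact hcomp'
    have : CompactSpace (torSub N p) := isCompact_iff_compactSpace.1 hNcomp
    obtain ⟨I, V, hI, hV, hsep⟩ := sep_of_tight_exponent (K := torSub N p) hp
      (fun x => Subtype.ext x.2) κ hκ (ht1 p hp hNcomp)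
    have hV' : ∀ i, ∃ U ∈ 𝓝 (0 : N), Subtype.val ⁻¹' U ⊆ V i := fun i =>
      (mem_nhds_subtype (torSub N p : Set N) 0 (V i)).1 (hV i)
    choose U hU hUV using hV'
    refine ⟨I, U, hI, hU, ?_⟩
    intro x hx hxU
    have := hsep ⟨x, hx⟩ (fun i => hUV i (hxU i))
    exact congrArg Subtype.val this
  choose I V hI hV hsepV using hexp
  have hhalf : ∀ (p : Nat.Primes) (i : I p), ∃ W : ℕ → Set N, Halving W ∧ W 0 ⊆ V p i :=
    fun p i => exists_halving (hV p i)
  choose W hW hWV using hhalf
  let J : Type := Σ p : Nat.Primes, I p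
  let H : AddSubgroup N := haloSub (fun j : J => W j.1 j.2) (fun j => hW j.1 j.2)
  have hHcl : IsClosed (H : Set N) := isClosed_haloSub _ _
  have hHtor : ∀ p : ℕ, p.Prime → ∀ x ∈ H, p • x = 0 → x = 0 := by
    intro p hp x hx hpx
    apply hsepV ⟨p, hp⟩ x hpx
    intro i
    exact hWV _ _ (hx ⟨⟨p, hp⟩, i⟩ 0)
  have hHmin : IsMin H := hN.isMin_subgroup H hHcl
  have hHtf : ∀ n : ℕ, n ≠ 0 → ∀ x ∈ H, n • x = 0 → x = 0 := by
    intro n hn x hx hnx
    have h1 := torsionFree_of_primes (G := H) (fun p hp y hy =>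
      Subtype.ext (hHtor p hp y y.2 (by simpa using congrArg Subtype.val hy))) n hn ⟨x, hx⟩
      (Subtype.ext (by simpa using hnx))
    exact congrArg Subtype.val h1
  -- the closure of `H` in the completion
  let D : AddSubgroup C := (H.map ι).topologicalClosure
  have hDcl : IsClosed (D : Set C) := (H.map ι).isClosed_topologicalClosure
  have hDmin : IsMin D := hCmin.isMin_subgroup D hDcl
  have hDc : GComplete D := hCc.closed_subgroup D hDcl
  have hDmem : ∀ n : N, ι n ∈ D → n ∈ H := by
    intro n hn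
    have h1 : ι n ∈ closure (ι '' (H : Set N)) := hn
    have h2 : n ∈ closure (H : Set N) := by
      rw [hι.isInducing.closure_eq_preimage_closure_image]
      exact h1
    rwa [hHcl.closure_eq] at h2
  have hHD : ∀ n ∈ H, ι n ∈ D := fun n hn =>
    (H.map ι).le_topologicalClosure ⟨n, hn, rfl⟩
  have hDtf : ∀ n : ℕ, n ≠ 0 → ∀ x : D, n • x = 0 → x = 0 := by
    apply torsionFree_of_primes
    intro p hp x hx
    have hx' : p • (x : C) = 0 := by
      have := congrArg Subtype.val hx
      simpa using this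
    obtain ⟨n, hn⟩ := tor_subset_range hN ι hι hd hp hx'
    have hnH : n ∈ H := hDmem n (by rw [hn]; exact x.2)
    have hpn : p • n = 0 := by
      apply hι.injective
      rw [map_nsmul, hn, hx', map_zero]
    have : n = 0 := hHtor p hp n hnH hpn
    apply Subtype.ext
    rw [← hn, this, map_zero]
    rfl
  have hDcomp : CompactSpace D := hDmin.compact_of_torsionFree hDc hDtf
  -- the embedding of `H` in `D`
  let j : H →+ D := (ι.comp H.subtype).codRestrict D (fun n => hHD n n.2)
  have hj : ∀ n : H, ((j n : D) : C) = ι n := fun n => rfl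
  have hjemb : IsEmbedding j := by
    have h1 : IsEmbedding (fun n : H => ((j n : D) : C)) :=
      hι.comp IsEmbedding.subtypeVal
    exact IsEmbedding.of_comp (by
      apply Continuous.subtype_mk
      exact hι.continuous.comp continuous_subtype_val) continuous_subtype_val h1
  have hjdense : DenseRange j := by
    intro x
    rw [closure_subtype]
    have hx : (x : C) ∈ closure (ι '' (H : Set N)) := x.2
    have : (Subtype.val '' range j : Set C) = ι '' (H : Set N) := by
      ext y
      constructor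
      · rintro ⟨_, ⟨n, rfl⟩, rfl⟩
        exact ⟨n, n.2, rfl⟩
      · rintro ⟨n, hn, rfl⟩
        exact ⟨_, ⟨⟨n, hn⟩, rfl⟩, rfl⟩
    rwa [this]
  obtain ⟨I₂, V₂, hI₂, hV₂, hsep₂⟩ := sep_of_tight (C := D) hDtf j.range
    (by
      intro L hL hLne
      by_contra hno
      push Not at hno
      apply hLne
      apply hHmin.essential j hjemb hjdense L hL
      intro n hn
      have := hno (j n) hn ⟨n, rfl⟩
      apply hjemb.injective
      rw [this, map_zero])
    κ hκ
    (by
      rintro A hA x ⟨n, rfl⟩ hx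
      have hHt : Tight H κ := ht2 H hHcl (precompact_of_embedding j hjemb) hHtf
      have hA' : j '' (j ⁻¹' A) = A := by
        apply image_preimage_eq_of_subset
        intro a ha
        exact hA ha
      have hx' : n ∈ closure (j ⁻¹' A) := by
        rw [hjemb.isInducing.closure_eq_preimage_closure_image]
        show j n ∈ closure (j '' (j ⁻¹' A))
        rwa [hA']
      obtain ⟨B, hBA, hB, hnB⟩ := hHt _ _ hx'
      refine ⟨j '' B, ?_, le_trans Cardinal.mk_image_le hB, ?_⟩
      · rintro _ ⟨b, hb, rfl⟩; exact hBA hb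
      · rw [hjemb.isInducing.closure_eq_preimage_closure_image] at hnB
        exact hnB)
  have hV₃ : ∀ i, ∃ U ∈ 𝓝 (0 : N), ∀ n : H, (n : N) ∈ U → j n ∈ V₂ i := by
    intro i
    have h1 : j ⁻¹' (V₂ i) ∈ 𝓝 (0 : H) := by
      apply hjemb.continuous.continuousAt
      rw [map_zero]
      exact hV₂ i
    obtain ⟨U, hU, hUV⟩ := (mem_nhds_subtype (H : Set N) 0 _).1 h1
    exact ⟨U, hU, fun n hn => hUV hn⟩
  choose U₃ hU₃ hU₃V using hV₃
  refine ⟨(J × ℕ) ⊕ I₂, Sum.elim (fun q => W q.1.1 q.1.2 q.2) U₃, ?_, ?_, ?_⟩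
  · have hJ : Cardinal.mk J ≤ κ := by
      rw [Cardinal.mk_sigma]
      refine le_trans (Cardinal.sum_le_sum _ (fun _ => κ) hI) ?_
      rw [Cardinal.sum_const']
      refine le_trans (mul_le_mul_left (Cardinal.mk_le_aleph0 (α := Nat.Primes)) κ) ?_
      exact (Cardinal.aleph0_mul_eq hκ).le
    rw [← Cardinal.add_def, ← Cardinal.mul_def, Cardinal.mk_nat]
    refine le_trans (add_le_add (le_trans (mul_le_mul_left hJ _) (Cardinal.mul_aleph0_eq hκ).le) hI₂) ?_
    exact (Cardinal.add_eq_self hκ).le
  · rintro (q | i)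
    · exact (hW q.1.1 q.1.2).1 q.2
    · exact hU₃ i
  · intro x hx
    have hxH : x ∈ H := fun j n => hx (Sum.inl (j, n))
    have h1 : j ⟨x, hxH⟩ = 0 := hsep₂ _ (fun i => hU₃V i ⟨x, hxH⟩ (hx (Sum.inr i)))
    have h2 : (⟨x, hxH⟩ : H) = 0 := by
      apply hjemb.injective
      rw [h1, map_zero]
    exact congrArg Subtype.val h2

end

section
variable {G : Type} [AddCommGroup G] [τ : TopologicalSpace G] [IsTopologicalAddGroup G]

/-- Tightness of a subspace at most `κ`. -/
def TightOn (X : Set G) (κ : Cardinal.{0}) : Prop :=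
  ∀ A ⊆ X, ∀ x ∈ X, x ∈ closure A → ∃ B ⊆ A, Cardinal.mk B ≤ κ ∧ x ∈ closure B

/-- The subgroups which are compact of prime exponent or precompact and torsion-free. -/
def SmallSub (P : AddSubgroup G) : Prop :=
  (IsCompact (P : Set G) ∧ ∃ p : ℕ, p.Prime ∧ ∀ x ∈ P, p • x = 0) ∨
    ((∀ V ∈ 𝓝 (0 : G), ∃ F : Set G, F.Finite ∧ ∀ x ∈ P, ∃ f ∈ F, x - f ∈ V) ∧
      ∀ n : ℕ, n ≠ 0 → ∀ x ∈ P, n • x = 0 → x = 0)

omit [IsTopologicalAddGroup G] in
theorem tight_of_tightOn {N : AddSubgroup G} (P : AddSubgroup N) {κ : Cardinal.{0}}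
    (h : TightOn (P.map N.subtype : Set G) κ) : Tight P κ := by
  have hemb : IsEmbedding (fun x : P => ((x : N) : G)) :=
    IsEmbedding.subtypeVal.comp IsEmbedding.subtypeVal
  intro A x hx
  have h1 : ((x : N) : G) ∈ closure ((fun x : P => ((x : N) : G)) '' A) := by
    rw [hemb.isInducing.closure_eq_preimage_closure_image] at hx
    exact hx
  obtain ⟨B, hBA, hB, hxB⟩ := h _ (by
    rintro _ ⟨a, _, rfl⟩
    exact ⟨a, a.2, rfl⟩) _ ⟨x, x.2, rfl⟩ h1
  refine ⟨A ∩ (fun x : P => ((x : N) : G)) ⁻¹' B, inter_subset_left, ?_, ?_⟩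
  · refine le_trans (Cardinal.mk_le_mk_of_subset inter_subset_right) ?_
    exact le_trans (Cardinal.mk_preimage_of_injective _ B hemb.injective) hB
  · rw [hemb.isInducing.closure_eq_preimage_closure_image]
    have : (fun x : P => ((x : N) : G)) '' (A ∩ (fun x : P => ((x : N) : G)) ⁻¹' B) = B := by
      ext y
      constructor
      · rintro ⟨a, ⟨_, ha⟩, rfl⟩; exact ha
      · intro hy
        obtain ⟨a, ha, rfl⟩ := hBA hy
        exact ⟨a, ⟨ha, hy⟩, rfl⟩
    show ((x : N) : G) ∈ closure _
    rwa [this]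

theorem sep_locmin [T2Space G] {U : Set G} (hmin : MinOn G U) {W : ℕ → Set G}
    (hW : Halving W) (hWU : W 0 ⊆ U) (κ : Cardinal.{0}) (hκ : Cardinal.aleph0 ≤ κ)
    (ht : ∀ P : AddSubgroup G, IsClosed (P : Set G) → (∀ x ∈ P, ∀ n, x ∈ W n) → SmallSub P →
      TightOn (P : Set G) κ) : Sep G κ := by
  classical
  let N : AddSubgroup G := haloSub (fun _ : Unit => W) (fun _ => hW)
  have hNcl : IsClosed (N : Set G) := isClosed_haloSub _ _
  have hNmin : IsMin N := by
    apply hmin.isMin_subgroup N hNcl (hW.1 1)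
    intro v hv n hn
    exact hWU (hW.2.2 0 v hv n (hn () 1))
  have himg : ∀ P : AddSubgroup N, (P.map N.subtype : Set G) = Subtype.val '' (P : Set N) := by
    intro P
    ext x
    rfl
  have hclo : ∀ P : AddSubgroup N, IsClosed (P : Set N) → IsClosed (P.map N.subtype : Set G) := by
    intro P hP
    rw [himg]
    exact hNcl.isClosedEmbedding_subtypeVal.isClosedMap _ hP
  have hmem : ∀ P : AddSubgroup N, ∀ x ∈ P.map N.subtype, ∀ n, x ∈ W n := by
    rintro P _ ⟨x, _, rfl⟩ n
    exact x.2 () n
  obtain ⟨I, V, hI, hV, hsep⟩ := sep_of_small hNmin κ hκ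
    (by
      intro p hp hc
      apply tight_of_tightOn
      apply ht _ (hclo _ hc.isClosed) (hmem _)
      left
      refine ⟨?_, p, hp, ?_⟩
      · rw [himg]
        exact hc.image continuous_subtype_val
      · rintro _ ⟨x, hx, rfl⟩
        have hx' : p • x = 0 := hx
        show p • (x : G) = 0
        rw [← AddSubgroup.coe_nsmul, hx']
        rfl)
    (by
      intro H hH hpre htf
      apply tight_of_tightOn
      apply ht _ (hclo _ hH) (hmem _)
      right
      refine ⟨?_, ?_⟩
      · intro V hV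
        have h1 : (fun x : H => ((x : N) : G)) ⁻¹' V ∈ 𝓝 (0 : H) := by
          have hc : Continuous (fun x : H => ((x : N) : G)) :=
            continuous_subtype_val.comp continuous_subtype_val
          apply hc.continuousAt
          exact hV
        obtain ⟨F, hF, hFV⟩ := hpre _ h1
        refine ⟨(fun x : H => ((x : N) : G)) '' F, hF.image _, ?_⟩
        rintro _ ⟨x, hx, rfl⟩
        obtain ⟨f, hf, hfV⟩ := hFV ⟨x, hx⟩
        exact ⟨_, ⟨f, hf, rfl⟩, hfV⟩
      · rintro n hn _ ⟨x, hx, rfl⟩ h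
        have h1 : n • x = 0 := by
          apply Subtype.ext
          rw [AddSubgroup.coe_nsmul]
          exact h
        have h2 := htf n hn x hx h1
        show (x : G) = 0
        rw [h2]
        rfl)
  have hV' : ∀ i, ∃ U ∈ 𝓝 (0 : G), Subtype.val ⁻¹' U ⊆ V i := fun i =>
    (mem_nhds_subtype (N : Set G) 0 (V i)).1 (hV i)
  choose U' hU' hUV' using hV'
  refine ⟨ℕ ⊕ I, Sum.elim W U', ?_, ?_, ?_⟩
  · rw [← Cardinal.add_def, Cardinal.mk_nat]
    refine le_trans (add_le_add hκ hI) ?_
    exact (Cardinal.add_eq_self hκ).le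
  · rintro (n | i)
    · exact hW.1 n
    · exact hU' i
  · intro x hx
    have hxN : x ∈ N := fun _ n => hx (Sum.inl n)
    have := hsep ⟨x, hxN⟩ (fun i => hUV' i (hx (Sum.inr i)))
    exact congrArg Subtype.val this

end

end Pool.Agent.Helper21.LM
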